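import Pool.Agent.Q149.EGeven

/-!
# Labelled even graphs have no closed form with a bounded number of terms

For the cycle type `(p, 0, 0, ...)` of the identity, `W_j(x)` is the sum `W p x` of `x ^ |E(G)|`
over all even graphs `G` on `p` labelled vertices. It is not a sum of `m` power products of
polynomials of total degree `s` if `p > m² (s + 1) + 2 m + 1`. In particular the closed form asked
for does not exist if its factors are `1 + x^k` and `1 - x^k` with `k ≤ K`, `K` fixed.
-/

set_option autoImplicit false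

namespace Pool.Agent.Results.MP_98cfca_co.ManyTermsNeeded

open Finset Polynomial

open Classical in
/-- The sum of `x ^ |E(G)|` over the even graphs `G` (all degrees even) on `p` labelled vertices. -/
noncomputable def W (p : ℕ) (x : ℝ) : ℝ :=
  ∑ G : SimpleGraph (Fin p), if ∀ v, Even (G.degree v) then x ^ G.edgeFinset.card else 0

theorem general {ι : Type} [Fintype ι] [DecidableEq ι] (m p s : ℕ) (g : ι → ℝ[X])
    (hs : ∑ l, (g l).natDegree ≤ s) (hpos : ∀ l, ∀ x ∈ Set.Ioo (0 : ℝ) 1, 0 < (g l).eval x)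
    (hp : m ^ 2 * (s + 1) + 2 * m + 1 < p) :
    ¬ ∃ (c : Fin m → ℝ) (e : Fin m → ι → ℤ), ∀ x ∈ Set.Ioo (0 : ℝ) 1,
      W p x = ∑ i, c i * ∏ l, (g l).eval x ^ e i l := by
  rintro ⟨c, e, h⟩
  refine Q149.EGtrans.no_rep_x p m s (p.choose 2) ?_ g hs hpos (fun i => 2 ^ p * c i) e hp ?_
  · intro k hk
    have h1 := Q149.EGeven.card_neg (univ.filter (fun v : Fin p => v.1 < k))
    have h2 : (univ.filter (fun v : Fin p => v.1 < k)).card = k := by
      rw [Fin.card_filter_val_lt]
      omega
    rw [h2] at h1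
    rw [← h1]
    have h4 := SimpleGraph.card_edgeFinset_top_eq_card_choose_two (V := Fin p)
    rw [Fintype.card_fin] at h4
    calc _ ≤ ((⊤ : SimpleGraph (Fin p)).edgeFinset).card := card_filter_le _ _
      _ = p.choose 2 := by convert h4
  · intro x hx
    rw [← Q149.EGeven.formula p x]
    have h1 : Q149.EGeven.W p x = W p x := rfl
    rw [h1, h x hx, mul_sum]
    apply sum_congr rfl
    intro i _
    ring

/-- (1) Let `g l`, `l = 1, ..., r`, be real polynomials which are positive on the interval `(0, 1)`,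
of total degree at most `s`. If `p > m² (s + 1) + 2 m + 1` then `W p x` has no expression as a sum
of `m` terms, each a constant times a product of integer powers of the `g l`, not even for all `x`
with `0 < x < 1`.

(2) In particular, if `p > m² (K (K + 1) + 1) + 2 m + 1` then `W p x` is not the sum of `m` terms,
each a constant times a product over `k = 1, ..., K` of factors `(1 + x^k)^a` and `(1 - x^k)^b` with
integers `a`, `b` depending on `k`, on the term and on `p`. -/
theorem result :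
    (∀ (m p s r : ℕ) (g : Fin r → ℝ[X]), ∑ l, (g l).natDegree ≤ s →
      (∀ l, ∀ x ∈ Set.Ioo (0 : ℝ) 1, 0 < (g l).eval x) →
      m ^ 2 * (s + 1) + 2 * m + 1 < p →
      ¬ ∃ (c : Fin m → ℝ) (e : Fin m → Fin r → ℤ), ∀ x ∈ Set.Ioo (0 : ℝ) 1,
        W p x = ∑ i, c i * ∏ l, (g l).eval x ^ e i l) ∧
    (∀ m K p : ℕ, m ^ 2 * (K * (K + 1) + 1) + 2 * m + 1 < p →
      ¬ ∃ (c : Fin m → ℝ) (a b : Fin m → Fin K → ℤ), ∀ x ∈ Set.Ioo (0 : ℝ) 1,
        W p x = ∑ i, c i * ∏ k : Fin K,
          ((1 + x ^ ((k : ℕ) + 1)) ^ a i k * (1 - x ^ ((k : ℕ) + 1)) ^ b i k)) := by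
  refine ⟨fun m p s r g hs hpos hp => general m p s g hs hpos hp, ?_⟩
  rintro m K p hp ⟨c, a, b, h⟩
  let g : Fin K ⊕ Fin K → ℝ[X] := fun l =>
    l.elim (fun k : Fin K => 1 + X ^ ((k : ℕ) + 1)) (fun k : Fin K => 1 - X ^ ((k : ℕ) + 1))
  apply general m p (K * (K + 1)) g ?_ ?_ hp
  · refine ⟨c, fun i l => l.elim (a i) (b i), ?_⟩
    intro x hx
    rw [h x hx]
    apply sum_congr rfl
    intro i _
    rw [Fintype.prod_sum_type, ← prod_mul_distrib]
    congr 1
    apply prod_congr rfl
    intro k _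
    simp [g]
  · rw [Fintype.sum_sum_type]
    have h1 : ∀ k : Fin K, (g (Sum.inl k)).natDegree ≤ (k : ℕ) + 1 := by
      intro k
      show (1 + X ^ ((k : ℕ) + 1) : ℝ[X]).natDegree ≤ (k : ℕ) + 1
      refine (natDegree_add_le _ _).trans ?_
      simp
    have h2 : ∀ k : Fin K, (g (Sum.inr k)).natDegree ≤ (k : ℕ) + 1 := by
      intro k
      show (1 - X ^ ((k : ℕ) + 1) : ℝ[X]).natDegree ≤ (k : ℕ) + 1
      refine (natDegree_sub_le _ _).trans ?_
      simp
    have h3 : 2 * ∑ k : Fin K, ((k : ℕ) + 1) = K * (K + 1) := by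
      rw [Fin.sum_univ_eq_sum_range (fun k => k + 1) K]
      have h4 := sum_range_succ' (fun k => k) K
      have h5 := Finset.sum_range_id_mul_two (K + 1)
      simp only [Nat.add_sub_cancel, add_zero] at h4 h5
      rw [← h4]
      linarith
    have h6 := sum_le_sum (fun k (_ : k ∈ (univ : Finset (Fin K))) => h1 k)
    have h7 := sum_le_sum (fun k (_ : k ∈ (univ : Finset (Fin K))) => h2 k)
    omega
  · rintro (k | k) x ⟨hx0, hx1⟩
    · show 0 < (1 + X ^ ((k : ℕ) + 1) : ℝ[X]).eval x
      simp only [eval_add, eval_one, eval_pow, eval_X]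
      positivity
    · show 0 < (1 - X ^ ((k : ℕ) + 1) : ℝ[X]).eval x
      simp only [eval_sub, eval_one, eval_pow, eval_X]
      have : x ^ ((k : ℕ) + 1) < 1 := pow_lt_one₀ hx0.le hx1 (by omega)
      linarith

end Pool.Agent.Results.MP_98cfca_co.ManyTermsNeeded
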